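import Pool.Agent.Helper35.MS.StD

/-!
# Project MS, module JID: polynomial identities for the jets
-/

set_option autoImplicit false
set_option linter.unusedSimpArgs false
set_option linter.unusedVariables false

namespace Helper25.MS

open Helper35.MS Helper35.PI Helper35.PI2 Helper32.CL

/-- the inner products of the vectors -/
private structure Gr {E : Type} [NormedAddCommGroup E] [InnerProductSpace ℝ E]
    (u v w t0 t1 t2 t3 : E) (g00 g01 g02 g03 g04 g05 g06 g11 g12 g13 g14 g15 g16 g22 g23 g24 g25 g26 g33 g34 g35 g36 g44 g45 g46 g55 g56 g66 : ℝ) : Prop where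
  h00 : (inner ℝ u u : ℝ) = g00
  h01 : (inner ℝ u v : ℝ) = g01
  h02 : (inner ℝ u w : ℝ) = g02
  h03 : (inner ℝ u t0 : ℝ) = g03
  h04 : (inner ℝ u t1 : ℝ) = g04
  h05 : (inner ℝ u t2 : ℝ) = g05
  h06 : (inner ℝ u t3 : ℝ) = g06
  h10 : (inner ℝ v u : ℝ) = g01
  h11 : (inner ℝ v v : ℝ) = g11
  h12 : (inner ℝ v w : ℝ) = g12
  h13 : (inner ℝ v t0 : ℝ) = g13
  h14 : (inner ℝ v t1 : ℝ) = g14
  h15 : (inner ℝ v t2 : ℝ) = g15
  h16 : (inner ℝ v t3 : ℝ) = g16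
  h20 : (inner ℝ w u : ℝ) = g02
  h21 : (inner ℝ w v : ℝ) = g12
  h22 : (inner ℝ w w : ℝ) = g22
  h23 : (inner ℝ w t0 : ℝ) = g23
  h24 : (inner ℝ w t1 : ℝ) = g24
  h25 : (inner ℝ w t2 : ℝ) = g25
  h26 : (inner ℝ w t3 : ℝ) = g26
  h30 : (inner ℝ t0 u : ℝ) = g03
  h31 : (inner ℝ t0 v : ℝ) = g13
  h32 : (inner ℝ t0 w : ℝ) = g23
  h33 : (inner ℝ t0 t0 : ℝ) = g33
  h34 : (inner ℝ t0 t1 : ℝ) = g34
  h35 : (inner ℝ t0 t2 : ℝ) = g35
  h36 : (inner ℝ t0 t3 : ℝ) = g36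
  h40 : (inner ℝ t1 u : ℝ) = g04
  h41 : (inner ℝ t1 v : ℝ) = g14
  h42 : (inner ℝ t1 w : ℝ) = g24
  h43 : (inner ℝ t1 t0 : ℝ) = g34
  h44 : (inner ℝ t1 t1 : ℝ) = g44
  h45 : (inner ℝ t1 t2 : ℝ) = g45
  h46 : (inner ℝ t1 t3 : ℝ) = g46
  h50 : (inner ℝ t2 u : ℝ) = g05
  h51 : (inner ℝ t2 v : ℝ) = g15
  h52 : (inner ℝ t2 w : ℝ) = g25
  h53 : (inner ℝ t2 t0 : ℝ) = g35
  h54 : (inner ℝ t2 t1 : ℝ) = g45
  h55 : (inner ℝ t2 t2 : ℝ) = g55
  h56 : (inner ℝ t2 t3 : ℝ) = g56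
  h60 : (inner ℝ t3 u : ℝ) = g06
  h61 : (inner ℝ t3 v : ℝ) = g16
  h62 : (inner ℝ t3 w : ℝ) = g26
  h63 : (inner ℝ t3 t0 : ℝ) = g36
  h64 : (inner ℝ t3 t1 : ℝ) = g46
  h65 : (inner ℝ t3 t2 : ℝ) = g56
  h66 : (inner ℝ t3 t3 : ℝ) = g66

/-- the values of all the sums in terms of inner products -/
private theorem vals {N : ℕ} (A : Fin 2 → Fin 2 → EE N) (T : Fin 2 → Fin 2 → Fin 2 → EE N)
    (u v w t0 t1 t2 t3 : EE N) (g00 g01 g02 g03 g04 g05 g06 g11 g12 g13 g14 g15 g16 g22 g23 g24 g25 g26 g33 g34 g35 g36 g44 g45 g46 g55 g56 g66 : ℝ)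
    (H : Gr u v w t0 t1 t2 t3 g00 g01 g02 g03 g04 g05 g06 g11 g12 g13 g14 g15 g16 g22 g23 g24 g25 g26 g33 g34 g35 g36 g44 g45 g46 g55 g56 g66)
    (a00 : A 0 0 = u) (a01 : A 0 1 = v) (a10 : A 1 0 = v)
    (a11 : A 1 1 = w) (s000 : T 0 0 0 = t0) (s001 : T 0 0 1 = t1) (s010 : T 0 1 0 = t1)
    (s100 : T 1 0 0 = t1) (s011 : T 0 1 1 = t2) (s101 : T 1 0 1 = t2) (s110 : T 1 1 0 = t2)
    (s111 : T 1 1 1 = t3) :

    XX A = g00 + 2 * g11 + g22 ∧
    YY A = g00 + 2 * g02 + g22 ∧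
    ZZ A = (g00 + g02) ^ 2 + (g01 + g12) ^ 2 + (g01 + g12) ^ 2 + (g02 + g22) ^ 2 ∧
    gY A T 0 = 2 * (g03 + g05 + g23 + g25) ∧
    gY A T 1 = 2 * (g04 + g06 + g24 + g26) ∧
    gZ A T 0 = 2 * ((g00 + g02) * ((g03 + g23) + (g03 + g05)) + (g01 + g12) * ((g04 + g24) +
    (g13 + g15)) + (g01 + g12) * ((g04 + g24) + (g13 + g15)) + (g02 + g22) * ((g05 + g25) +
    (g23 + g25))) ∧
    gZ A T 1 = 2 * ((g00 + g02) * ((g04 + g24) + (g04 + g06)) + (g01 + g12) * ((g05 + g25) +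
    (g14 + g16)) + (g01 + g12) * ((g05 + g25) + (g14 + g16)) + (g02 + g22) * ((g06 + g26) +
    (g24 + g26))) ∧
    hX A T = -2 * (g33 + g44 + g44 + g55 + g44 + g55 + g55 + g66) + 2 * ((g00 ^ 2 + 2 * (g00 *
    g00 - g00 * g00)) + (g01 ^ 2 + 2 * (g00 * g11 - g01 * g01)) + (g01 ^ 2 + 2 * (g01 * g01 -
    g01 * g01)) + (g02 ^ 2 + 2 * (g01 * g12 - g02 * g11)) + (g01 ^ 2 + 2 * (g11 * g00 - g01 *
    g01)) + (g11 ^ 2 + 2 * (g11 * g11 - g11 * g11)) + (g11 ^ 2 + 2 * (g12 * g01 - g11 * g02)) +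
    (g12 ^ 2 + 2 * (g12 * g12 - g12 * g12)) + (g01 ^ 2 + 2 * (g01 * g01 - g01 * g01)) + (g11 ^
    2 + 2 * (g01 * g12 - g11 * g02)) + (g11 ^ 2 + 2 * (g11 * g11 - g11 * g11)) + (g12 ^ 2 + 2 *
    (g11 * g22 - g12 * g12)) + (g02 ^ 2 + 2 * (g12 * g01 - g02 * g11)) + (g12 ^ 2 + 2 * (g12 *
    g12 - g12 * g12)) + (g12 ^ 2 + 2 * (g22 * g11 - g12 * g12)) + (g22 ^ 2 + 2 * (g22 * g22 -
    g22 * g22))) ∧
    hY A T = -2 * ((g33 + 2 * g35 + g55) + (g44 + 2 * g46 + g66)) + 2 * ((g00 + g02) ^ 2 + (g01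
    + g12) ^ 2 + (g01 + g12) ^ 2 + (g02 + g22) ^ 2) ∧
    hZ A T = 4 * (g00 * ((g00 + g02) * (g00 + g02)) + g11 * ((g00 + g02) * (g00 + g02)) + g01 *
    ((g00 + g02) * (g01 + g12)) + g12 * ((g00 + g02) * (g01 + g12)) + g00 * ((g01 + g12) * (g01
    + g12)) + g11 * ((g01 + g12) * (g01 + g12)) + g01 * ((g01 + g12) * (g02 + g22)) + g12 *
    ((g01 + g12) * (g02 + g22)) + g01 * ((g01 + g12) * (g00 + g02)) + g12 * ((g01 + g12) * (g00
    + g02)) + g11 * ((g01 + g12) * (g01 + g12)) + g22 * ((g01 + g12) * (g01 + g12)) + g01 *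
    ((g02 + g22) * (g01 + g12)) + g12 * ((g02 + g22) * (g01 + g12)) + g11 * ((g02 + g22) * (g02
    + g22)) + g22 * ((g02 + g22) * (g02 + g22))) - 4 * ((g00 + g02) * (g33 + g35) + (g00 + g02)
    * (g44 + g46) + (g01 + g12) * (g34 + g45) + (g01 + g12) * (g45 + g56) + (g01 + g12) * (g34
    + g45) + (g01 + g12) * (g45 + g56) + (g02 + g22) * (g35 + g55) + (g02 + g22) * (g46 + g66))
    + 4 * (g00 * ((g00 + g02) * (g00 + g02)) + g01 * ((g00 + g02) * (g01 + g12)) + g01 * ((g00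
    + g02) * (g01 + g12)) + g02 * ((g00 + g02) * (g02 + g22)) + g01 * ((g01 + g12) * (g00 +
    g02)) + g11 * ((g01 + g12) * (g01 + g12)) + g11 * ((g01 + g12) * (g01 + g12)) + g12 * ((g01
    + g12) * (g02 + g22)) + g01 * ((g01 + g12) * (g00 + g02)) + g11 * ((g01 + g12) * (g01 +
    g12)) + g11 * ((g01 + g12) * (g01 + g12)) + g12 * ((g01 + g12) * (g02 + g22)) + g02 * ((g02
    + g22) * (g00 + g02)) + g12 * ((g02 + g22) * (g01 + g12)) + g12 * ((g02 + g22) * (g01 +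
    g12)) + g22 * ((g02 + g22) * (g02 + g22))) - 4 * ((g00 + g02) * (g00 + g02) * g00 + (g00 +
    g02) * (g01 + g12) * g01 + (g00 + g02) * (g01 + g12) * g01 + (g00 + g02) * (g02 + g22) *
    g11 + (g01 + g12) * (g00 + g02) * g01 + (g01 + g12) * (g01 + g12) * g02 + (g01 + g12) *
    (g01 + g12) * g11 + (g01 + g12) * (g02 + g22) * g12 + (g01 + g12) * (g00 + g02) * g01 +
    (g01 + g12) * (g01 + g12) * g11 + (g01 + g12) * (g01 + g12) * g02 + (g01 + g12) * (g02 +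
    g22) * g12 + (g02 + g22) * (g00 + g02) * g11 + (g02 + g22) * (g01 + g12) * g12 + (g02 +
    g22) * (g01 + g12) * g12 + (g02 + g22) * (g02 + g22) * g22) - 2 * (((g03 + g23) + (g03 +
    g05)) ^ 2 + ((g04 + g24) + (g04 + g06)) ^ 2 + ((g04 + g24) + (g13 + g15)) ^ 2 + ((g05 +
    g25) + (g14 + g16)) ^ 2 + ((g04 + g24) + (g13 + g15)) ^ 2 + ((g05 + g25) + (g14 + g16)) ^ 2
    + ((g05 + g25) + (g23 + g25)) ^ 2 + ((g06 + g26) + (g24 + g26)) ^ 2) := by
  have hH : Hv A = u + w := by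
    unfold Hv
    rw [Fin.sum_univ_two, a00, a11]
  have he0 : et T 0 = t0 + t2 := by
    unfold et
    rw [Fin.sum_univ_two, s000, s110]
  have he1 : et T 1 = t1 + t3 := by
    unfold et
    rw [Fin.sum_univ_two, s001, s111]

  have hZZ : ZZ A = (g00 + g02) ^ 2 + (g01 + g12) ^ 2 + (g01 + g12) ^ 2 + (g02 + g22) ^ 2 := by
    unfold ZZ zz
    simp only [Fin.sum_univ_two, hH, a00, a01, a11, a10, inner_add_right,
      H.h00, H.h01, H.h02, H.h03, H.h04, H.h05, H.h06, H.h10, H.h11, H.h12, H.h13, H.h14,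
      H.h15, H.h16, H.h20, H.h21, H.h22, H.h23, H.h24, H.h25, H.h26, H.h30, H.h31, H.h32,
      H.h33, H.h34, H.h35, H.h36, H.h40, H.h41, H.h42, H.h43, H.h44, H.h45, H.h46, H.h50,
      H.h51, H.h52, H.h53, H.h54, H.h55, H.h56, H.h60, H.h61, H.h62, H.h63, H.h64, H.h65, H.h66]
    ring
  refine ⟨?_, ?_, hZZ, ?_, ?_, ?_, ?_, ?_, ?_, ?_⟩
  · unfold XX
    simp only [Fin.sum_univ_two, ← real_inner_self_eq_norm_sq, hH, he0, he1, a00, a01, a11, a10, s000,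
      s001, s010, s100, s011, s101, s110, s111, inner_add_left, inner_add_right,
      inner_smul_left, inner_smul_right, conj_trivial, H.h00, H.h01, H.h02, H.h03, H.h04,
      H.h05, H.h06, H.h10, H.h11, H.h12, H.h13, H.h14, H.h15, H.h16, H.h20, H.h21, H.h22,
      H.h23, H.h24, H.h25, H.h26, H.h30, H.h31, H.h32, H.h33, H.h34, H.h35, H.h36, H.h40,
      H.h41, H.h42, H.h43, H.h44, H.h45, H.h46, H.h50, H.h51, H.h52, H.h53, H.h54, H.h55,
      H.h56, H.h60, H.h61, H.h62, H.h63, H.h64, H.h65, H.h66]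
    ring
  · unfold YY
    simp only [Fin.sum_univ_two, ← real_inner_self_eq_norm_sq, hH, he0, he1, a00, a01, a11, a10, s000,
      s001, s010, s100, s011, s101, s110, s111, inner_add_left, inner_add_right,
      inner_smul_left, inner_smul_right, conj_trivial, H.h00, H.h01, H.h02, H.h03, H.h04,
      H.h05, H.h06, H.h10, H.h11, H.h12, H.h13, H.h14, H.h15, H.h16, H.h20, H.h21, H.h22,
      H.h23, H.h24, H.h25, H.h26, H.h30, H.h31, H.h32, H.h33, H.h34, H.h35, H.h36, H.h40,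
      H.h41, H.h42, H.h43, H.h44, H.h45, H.h46, H.h50, H.h51, H.h52, H.h53, H.h54, H.h55,
      H.h56, H.h60, H.h61, H.h62, H.h63, H.h64, H.h65, H.h66]
    ring
  · unfold gY
    simp only [Fin.sum_univ_two, ← real_inner_self_eq_norm_sq, hH, he0, he1, a00, a01, a11, a10, s000,
      s001, s010, s100, s011, s101, s110, s111, inner_add_left, inner_add_right,
      inner_smul_left, inner_smul_right, conj_trivial, H.h00, H.h01, H.h02, H.h03, H.h04,
      H.h05, H.h06, H.h10, H.h11, H.h12, H.h13, H.h14, H.h15, H.h16, H.h20, H.h21, H.h22,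
      H.h23, H.h24, H.h25, H.h26, H.h30, H.h31, H.h32, H.h33, H.h34, H.h35, H.h36, H.h40,
      H.h41, H.h42, H.h43, H.h44, H.h45, H.h46, H.h50, H.h51, H.h52, H.h53, H.h54, H.h55,
      H.h56, H.h60, H.h61, H.h62, H.h63, H.h64, H.h65, H.h66]
    ring
  · unfold gY
    simp only [Fin.sum_univ_two, ← real_inner_self_eq_norm_sq, hH, he0, he1, a00, a01, a11, a10, s000,
      s001, s010, s100, s011, s101, s110, s111, inner_add_left, inner_add_right,
      inner_smul_left, inner_smul_right, conj_trivial, H.h00, H.h01, H.h02, H.h03, H.h04,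
      H.h05, H.h06, H.h10, H.h11, H.h12, H.h13, H.h14, H.h15, H.h16, H.h20, H.h21, H.h22,
      H.h23, H.h24, H.h25, H.h26, H.h30, H.h31, H.h32, H.h33, H.h34, H.h35, H.h36, H.h40,
      H.h41, H.h42, H.h43, H.h44, H.h45, H.h46, H.h50, H.h51, H.h52, H.h53, H.h54, H.h55,
      H.h56, H.h60, H.h61, H.h62, H.h63, H.h64, H.h65, H.h66]
    ring
  · unfold gZ zz gz
    simp only [Fin.sum_univ_two, ← real_inner_self_eq_norm_sq, hH, he0, he1, a00, a01, a11, a10, s000,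
      s001, s010, s100, s011, s101, s110, s111, inner_add_left, inner_add_right,
      inner_smul_left, inner_smul_right, conj_trivial, H.h00, H.h01, H.h02, H.h03, H.h04,
      H.h05, H.h06, H.h10, H.h11, H.h12, H.h13, H.h14, H.h15, H.h16, H.h20, H.h21, H.h22,
      H.h23, H.h24, H.h25, H.h26, H.h30, H.h31, H.h32, H.h33, H.h34, H.h35, H.h36, H.h40,
      H.h41, H.h42, H.h43, H.h44, H.h45, H.h46, H.h50, H.h51, H.h52, H.h53, H.h54, H.h55,
      H.h56, H.h60, H.h61, H.h62, H.h63, H.h64, H.h65, H.h66]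
    ring
  · unfold gZ zz gz
    simp only [Fin.sum_univ_two, ← real_inner_self_eq_norm_sq, hH, he0, he1, a00, a01, a11, a10, s000,
      s001, s010, s100, s011, s101, s110, s111, inner_add_left, inner_add_right,
      inner_smul_left, inner_smul_right, conj_trivial, H.h00, H.h01, H.h02, H.h03, H.h04,
      H.h05, H.h06, H.h10, H.h11, H.h12, H.h13, H.h14, H.h15, H.h16, H.h20, H.h21, H.h22,
      H.h23, H.h24, H.h25, H.h26, H.h30, H.h31, H.h32, H.h33, H.h34, H.h35, H.h36, H.h40,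
      H.h41, H.h42, H.h43, H.h44, H.h45, H.h46, H.h50, H.h51, H.h52, H.h53, H.h54, H.h55,
      H.h56, H.h60, H.h61, H.h62, H.h63, H.h64, H.h65, H.h66]
    ring
  · unfold hX Sq
    simp only [Fin.sum_univ_two, ← real_inner_self_eq_norm_sq, hH, he0, he1, a00, a01, a11, a10, s000,
      s001, s010, s100, s011, s101, s110, s111, inner_add_left, inner_add_right,
      inner_smul_left, inner_smul_right, conj_trivial, H.h00, H.h01, H.h02, H.h03, H.h04,
      H.h05, H.h06, H.h10, H.h11, H.h12, H.h13, H.h14, H.h15, H.h16, H.h20, H.h21, H.h22,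
      H.h23, H.h24, H.h25, H.h26, H.h30, H.h31, H.h32, H.h33, H.h34, H.h35, H.h36, H.h40,
      H.h41, H.h42, H.h43, H.h44, H.h45, H.h46, H.h50, H.h51, H.h52, H.h53, H.h54, H.h55,
      H.h56, H.h60, H.h61, H.h62, H.h63, H.h64, H.h65, H.h66]
    ring
  · unfold hY
    rw [hZZ]
    simp only [Fin.sum_univ_two, ← real_inner_self_eq_norm_sq, hH, he0, he1, a00, a01, a11, a10, s000,
      s001, s010, s100, s011, s101, s110, s111, inner_add_left, inner_add_right,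
      inner_smul_left, inner_smul_right, conj_trivial, H.h00, H.h01, H.h02, H.h03, H.h04,
      H.h05, H.h06, H.h10, H.h11, H.h12, H.h13, H.h14, H.h15, H.h16, H.h20, H.h21, H.h22,
      H.h23, H.h24, H.h25, H.h26, H.h30, H.h31, H.h32, H.h33, H.h34, H.h35, H.h36, H.h40,
      H.h41, H.h42, H.h43, H.h44, H.h45, H.h46, H.h50, H.h51, H.h52, H.h53, H.h54, H.h55,
      H.h56, H.h60, H.h61, H.h62, H.h63, H.h64, H.h65, H.h66]
    ring
  · unfold hZ zz gz
    simp only [Fin.sum_univ_two, ← real_inner_self_eq_norm_sq, hH, he0, he1, a00, a01, a11, a10, s000,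
      s001, s010, s100, s011, s101, s110, s111, inner_add_left, inner_add_right,
      inner_smul_left, inner_smul_right, conj_trivial, H.h00, H.h01, H.h02, H.h03, H.h04,
      H.h05, H.h06, H.h10, H.h11, H.h12, H.h13, H.h14, H.h15, H.h16, H.h20, H.h21, H.h22,
      H.h23, H.h24, H.h25, H.h26, H.h30, H.h31, H.h32, H.h33, H.h34, H.h35, H.h36, H.h40,
      H.h41, H.h42, H.h43, H.h44, H.h45, H.h46, H.h50, H.h51, H.h52, H.h53, H.h54, H.h55,
      H.h56, H.h60, H.h61, H.h62, H.h63, H.h64, H.h65, H.h66]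
    ring

theorem hJID : StJID := by
  intro N x₀ r r2 A T hr hr2 hx hA hT hA0 hT0
  subst hr2
  have hr0 : r ≠ 0 := hr.ne'
  obtain ⟨u, hu⟩ : ∃ u, u = A 0 0 := ⟨_, rfl⟩
  obtain ⟨v, hv⟩ : ∃ u, u = A 0 1 := ⟨_, rfl⟩
  obtain ⟨w, hw⟩ : ∃ u, u = A 1 1 := ⟨_, rfl⟩
  obtain ⟨t0, h0⟩ : ∃ u, u = T 0 0 0 := ⟨_, rfl⟩
  obtain ⟨t1, h1⟩ : ∃ u, u = T 0 0 1 := ⟨_, rfl⟩
  obtain ⟨t2, h2⟩ : ∃ u, u = T 0 1 1 := ⟨_, rfl⟩
  obtain ⟨t3, h3⟩ : ∃ u, u = T 1 1 1 := ⟨_, rfl⟩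
  have a10 : A 1 0 = v := by rw [hv]; exact hA 1 0
  have s010 : T 0 1 0 = t1 := by rw [h1]; exact hT.2 0 1 0
  have s100 : T 1 0 0 = t1 := by rw [← s010]; exact hT.1 1 0 0
  have s101 : T 1 0 1 = t2 := by rw [h2]; exact hT.1 1 0 1
  have s110 : T 1 1 0 = t2 := by rw [← s101]; exact hT.2 1 1 0
  have xu : (inner ℝ u x₀ : ℝ) = -1 := by rw [hu, hA0, if_pos rfl]
  have xv : (inner ℝ v x₀ : ℝ) = 0 := by rw [hv, hA0, if_neg (by decide)]
  have xw : (inner ℝ w x₀ : ℝ) = -1 := by rw [hw, hA0, if_pos rfl]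
  have xt0 : (inner ℝ t0 x₀ : ℝ) = 0 := by rw [h0]; exact hT0 _ _ _
  have xt1 : (inner ℝ t1 x₀ : ℝ) = 0 := by rw [h1]; exact hT0 _ _ _
  have xt2 : (inner ℝ t2 x₀ : ℝ) = 0 := by rw [h2]; exact hT0 _ _ _
  have xt3 : (inner ℝ t3 x₀ : ℝ) = 0 := by rw [h3]; exact hT0 _ _ _
  have ux : (inner ℝ x₀ u : ℝ) = -1 := by rw [real_inner_comm]; exact xu
  have vx : (inner ℝ x₀ v : ℝ) = 0 := by rw [real_inner_comm]; exact xv
  have wx : (inner ℝ x₀ w : ℝ) = -1 := by rw [real_inner_comm]; exact xw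
  have tx0 : (inner ℝ x₀ t0 : ℝ) = 0 := by rw [real_inner_comm]; exact xt0
  have tx1 : (inner ℝ x₀ t1 : ℝ) = 0 := by rw [real_inner_comm]; exact xt1
  have tx2 : (inner ℝ x₀ t2 : ℝ) = 0 := by rw [real_inner_comm]; exact xt2
  have tx3 : (inner ℝ x₀ t3 : ℝ) = 0 := by rw [real_inner_comm]; exact xt3
  have xx : (inner ℝ x₀ x₀ : ℝ) = r ^ 2 := by rw [real_inner_self_eq_norm_sq, hx]

  obtain ⟨g00, h00⟩ : ∃ g, (inner ℝ u u : ℝ) = g := ⟨_, rfl⟩
  obtain ⟨g01, h01⟩ : ∃ g, (inner ℝ u v : ℝ) = g := ⟨_, rfl⟩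
  obtain ⟨g02, h02⟩ : ∃ g, (inner ℝ u w : ℝ) = g := ⟨_, rfl⟩
  obtain ⟨g03, h03⟩ : ∃ g, (inner ℝ u t0 : ℝ) = g := ⟨_, rfl⟩
  obtain ⟨g04, h04⟩ : ∃ g, (inner ℝ u t1 : ℝ) = g := ⟨_, rfl⟩
  obtain ⟨g05, h05⟩ : ∃ g, (inner ℝ u t2 : ℝ) = g := ⟨_, rfl⟩
  obtain ⟨g06, h06⟩ : ∃ g, (inner ℝ u t3 : ℝ) = g := ⟨_, rfl⟩
  obtain ⟨g11, h11⟩ : ∃ g, (inner ℝ v v : ℝ) = g := ⟨_, rfl⟩
  obtain ⟨g12, h12⟩ : ∃ g, (inner ℝ v w : ℝ) = g := ⟨_, rfl⟩
  obtain ⟨g13, h13⟩ : ∃ g, (inner ℝ v t0 : ℝ) = g := ⟨_, rfl⟩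
  obtain ⟨g14, h14⟩ : ∃ g, (inner ℝ v t1 : ℝ) = g := ⟨_, rfl⟩
  obtain ⟨g15, h15⟩ : ∃ g, (inner ℝ v t2 : ℝ) = g := ⟨_, rfl⟩
  obtain ⟨g16, h16⟩ : ∃ g, (inner ℝ v t3 : ℝ) = g := ⟨_, rfl⟩
  obtain ⟨g22, h22⟩ : ∃ g, (inner ℝ w w : ℝ) = g := ⟨_, rfl⟩
  obtain ⟨g23, h23⟩ : ∃ g, (inner ℝ w t0 : ℝ) = g := ⟨_, rfl⟩
  obtain ⟨g24, h24⟩ : ∃ g, (inner ℝ w t1 : ℝ) = g := ⟨_, rfl⟩
  obtain ⟨g25, h25⟩ : ∃ g, (inner ℝ w t2 : ℝ) = g := ⟨_, rfl⟩
  obtain ⟨g26, h26⟩ : ∃ g, (inner ℝ w t3 : ℝ) = g := ⟨_, rfl⟩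
  obtain ⟨g33, h33⟩ : ∃ g, (inner ℝ t0 t0 : ℝ) = g := ⟨_, rfl⟩
  obtain ⟨g34, h34⟩ : ∃ g, (inner ℝ t0 t1 : ℝ) = g := ⟨_, rfl⟩
  obtain ⟨g35, h35⟩ : ∃ g, (inner ℝ t0 t2 : ℝ) = g := ⟨_, rfl⟩
  obtain ⟨g36, h36⟩ : ∃ g, (inner ℝ t0 t3 : ℝ) = g := ⟨_, rfl⟩
  obtain ⟨g44, h44⟩ : ∃ g, (inner ℝ t1 t1 : ℝ) = g := ⟨_, rfl⟩
  obtain ⟨g45, h45⟩ : ∃ g, (inner ℝ t1 t2 : ℝ) = g := ⟨_, rfl⟩
  obtain ⟨g46, h46⟩ : ∃ g, (inner ℝ t1 t3 : ℝ) = g := ⟨_, rfl⟩
  obtain ⟨g55, h55⟩ : ∃ g, (inner ℝ t2 t2 : ℝ) = g := ⟨_, rfl⟩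
  obtain ⟨g56, h56⟩ : ∃ g, (inner ℝ t2 t3 : ℝ) = g := ⟨_, rfl⟩
  obtain ⟨g66, h66⟩ : ∃ g, (inner ℝ t3 t3 : ℝ) = g := ⟨_, rfl⟩
  have h10 : (inner ℝ v u : ℝ) = g01 := by rw [real_inner_comm]; exact h01
  have h20 : (inner ℝ w u : ℝ) = g02 := by rw [real_inner_comm]; exact h02
  have h21 : (inner ℝ w v : ℝ) = g12 := by rw [real_inner_comm]; exact h12
  have h30 : (inner ℝ t0 u : ℝ) = g03 := by rw [real_inner_comm]; exact h03
  have h31 : (inner ℝ t0 v : ℝ) = g13 := by rw [real_inner_comm]; exact h13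
  have h32 : (inner ℝ t0 w : ℝ) = g23 := by rw [real_inner_comm]; exact h23
  have h40 : (inner ℝ t1 u : ℝ) = g04 := by rw [real_inner_comm]; exact h04
  have h41 : (inner ℝ t1 v : ℝ) = g14 := by rw [real_inner_comm]; exact h14
  have h42 : (inner ℝ t1 w : ℝ) = g24 := by rw [real_inner_comm]; exact h24
  have h43 : (inner ℝ t1 t0 : ℝ) = g34 := by rw [real_inner_comm]; exact h34
  have h50 : (inner ℝ t2 u : ℝ) = g05 := by rw [real_inner_comm]; exact h05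
  have h51 : (inner ℝ t2 v : ℝ) = g15 := by rw [real_inner_comm]; exact h15
  have h52 : (inner ℝ t2 w : ℝ) = g25 := by rw [real_inner_comm]; exact h25
  have h53 : (inner ℝ t2 t0 : ℝ) = g35 := by rw [real_inner_comm]; exact h35
  have h54 : (inner ℝ t2 t1 : ℝ) = g45 := by rw [real_inner_comm]; exact h45
  have h60 : (inner ℝ t3 u : ℝ) = g06 := by rw [real_inner_comm]; exact h06
  have h61 : (inner ℝ t3 v : ℝ) = g16 := by rw [real_inner_comm]; exact h16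
  have h62 : (inner ℝ t3 w : ℝ) = g26 := by rw [real_inner_comm]; exact h26
  have h63 : (inner ℝ t3 t0 : ℝ) = g36 := by rw [real_inner_comm]; exact h36
  have h64 : (inner ℝ t3 t1 : ℝ) = g46 := by rw [real_inner_comm]; exact h46
  have h65 : (inner ℝ t3 t2 : ℝ) = g56 := by rw [real_inner_comm]; exact h56
  have H : Gr u v w t0 t1 t2 t3 g00 g01 g02 g03 g04 g05 g06 g11 g12 g13 g14 g15 g16 g22 g23 g24 g25 g26 g33 g34 g35 g36
      g44 g45 g46 g55 g56 g66 :=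
    ⟨h00, h01, h02, h03, h04, h05, h06, h10, h11, h12, h13, h14, h15, h16, h20, h21, h22, h23,
      h24, h25, h26, h30, h31, h32, h33, h34, h35, h36, h40, h41, h42, h43, h44, h45, h46, h50,
      h51, h52, h53, h54, h55, h56, h60, h61, h62, h63, h64, h65, h66⟩
  obtain ⟨eX, eY, eZ, eY0, eY1, eZ0, eZ1, ehX, ehY, ehZ⟩ := vals A T u v w t0 t1 t2 t3 _ _ _ _ _ _ _ _ _ _ _ _
    _ _ _ _ _ _ _ _ _ _ _ _ _ _ _ _ H hu.symm hv.symm a10 hw.symm h0.symm h1.symm s010 s100 h2.symm s101 s110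
    h3.symm
  obtain ⟨m, hm⟩ : ∃ m, m = (r / 2) • (u + w) + (1 / r) • x₀ := ⟨_, rfl⟩
  obtain ⟨a, ha⟩ : ∃ a, a = (r / 2) • (u - w) := ⟨_, rfl⟩
  obtain ⟨b, hb⟩ : ∃ b, b = r • v := ⟨_, rfl⟩
  obtain ⟨m₁, hm1⟩ : ∃ m, m = (r ^ 2 / 2) • (t0 + t2) := ⟨_, rfl⟩
  obtain ⟨m₂, hm2⟩ : ∃ m, m = (r ^ 2 / 2) • (t1 + t3) := ⟨_, rfl⟩
  obtain ⟨p, hp⟩ : ∃ p, p = (r ^ 2 / 4) • (t0 - (3 : ℝ) • t2) := ⟨_, rfl⟩
  obtain ⟨q, hq⟩ : ∃ q, q = (r ^ 2 / 4) • ((3 : ℝ) • t1 - t3) := ⟨_, rfl⟩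
  obtain ⟨a₁, ha1⟩ : ∃ a, a = (1 / 2 : ℝ) • m₁ + p := ⟨_, rfl⟩
  obtain ⟨b₁, hb1⟩ : ∃ a, a = (1 / 2 : ℝ) • m₂ + q := ⟨_, rfl⟩
  obtain ⟨a₂, ha2⟩ : ∃ a, a = q - (1 / 2 : ℝ) • m₂ := ⟨_, rfl⟩
  obtain ⟨b₂, hb2⟩ : ∃ a, a = (1 / 2 : ℝ) • m₁ - p := ⟨_, rfl⟩
  have ea1 : a₁ = (r ^ 2 / 2) • (t0 - t2) := by rw [ha1, hm1, hp]; module
  have eb1 : b₁ = (r ^ 2) • t1 := by rw [hb1, hm2, hq]; module
  have ea2 : a₂ = (r ^ 2 / 2) • (t1 - t3) := by rw [ha2, hm2, hq]; module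
  have eb2 : b₂ = (r ^ 2) • t2 := by rw [hb2, hm1, hp]; module

  have fx : ‖m‖ ^ 2 = r ^ 2 * (g00 + 2 * g02 + g22) / 4 - 1 := by
    rw [hm]
    simp only [← real_inner_self_eq_norm_sq, inner_add_left, inner_add_right, inner_sub_left,
      inner_sub_right, inner_smul_left, inner_smul_right, conj_trivial, xu, xv, xw, ux, vx, wx,
      xt0, xt1, xt2, xt3, tx0, tx1, tx2, tx3, xx, h00, h01, h02, h03, h04, h05, h06, h10, h11,
      h12, h13, h14, h15, h16, h20, h21, h22, h23, h24, h25, h26, h30, h31, h32, h33, h34, h35,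
      h36, h40, h41, h42, h43, h44, h45, h46, h50, h51, h52, h53, h54, h55, h56, h60, h61, h62,
      h63, h64, h65, h66]
    field_simp
    ring
  have fa : ‖a‖ ^ 2 = r ^ 2 / 4 * (g00 - 2 * g02 + g22) := by
    rw [ha]
    simp only [← real_inner_self_eq_norm_sq, inner_add_left, inner_add_right, inner_sub_left,
      inner_sub_right, inner_smul_left, inner_smul_right, conj_trivial, xu, xv, xw, ux, vx, wx,
      xt0, xt1, xt2, xt3, tx0, tx1, tx2, tx3, xx, h00, h01, h02, h03, h04, h05, h06, h10, h11,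
      h12, h13, h14, h15, h16, h20, h21, h22, h23, h24, h25, h26, h30, h31, h32, h33, h34, h35,
      h36, h40, h41, h42, h43, h44, h45, h46, h50, h51, h52, h53, h54, h55, h56, h60, h61, h62,
      h63, h64, h65, h66]
    ring
  have fb : ‖b‖ ^ 2 = r ^ 2 * g11 := by
    rw [hb]
    simp only [← real_inner_self_eq_norm_sq, inner_add_left, inner_add_right, inner_sub_left,
      inner_sub_right, inner_smul_left, inner_smul_right, conj_trivial, xu, xv, xw, ux, vx, wx,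
      xt0, xt1, xt2, xt3, tx0, tx1, tx2, tx3, xx, h00, h01, h02, h03, h04, h05, h06, h10, h11,
      h12, h13, h14, h15, h16, h20, h21, h22, h23, h24, h25, h26, h30, h31, h32, h33, h34, h35,
      h36, h40, h41, h42, h43, h44, h45, h46, h50, h51, h52, h53, h54, h55, h56, h60, h61, h62,
      h63, h64, h65, h66]
    ring
  have fab : (inner ℝ a b : ℝ) = r ^ 2 / 2 * (g01 - g12) := by
    rw [ha, hb]
    simp only [← real_inner_self_eq_norm_sq, inner_add_left, inner_add_right, inner_sub_left,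
      inner_sub_right, inner_smul_left, inner_smul_right, conj_trivial, xu, xv, xw, ux, vx, wx,
      xt0, xt1, xt2, xt3, tx0, tx1, tx2, tx3, xx, h00, h01, h02, h03, h04, h05, h06, h10, h11,
      h12, h13, h14, h15, h16, h20, h21, h22, h23, h24, h25, h26, h30, h31, h32, h33, h34, h35,
      h36, h40, h41, h42, h43, h44, h45, h46, h50, h51, h52, h53, h54, h55, h56, h60, h61, h62,
      h63, h64, h65, h66]
    ring
  have fα : (inner ℝ m a : ℝ) = r ^ 2 / 4 * (g00 - g22) := by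
    rw [hm, ha]
    simp only [← real_inner_self_eq_norm_sq, inner_add_left, inner_add_right, inner_sub_left,
      inner_sub_right, inner_smul_left, inner_smul_right, conj_trivial, xu, xv, xw, ux, vx, wx,
      xt0, xt1, xt2, xt3, tx0, tx1, tx2, tx3, xx, h00, h01, h02, h03, h04, h05, h06, h10, h11,
      h12, h13, h14, h15, h16, h20, h21, h22, h23, h24, h25, h26, h30, h31, h32, h33, h34, h35,
      h36, h40, h41, h42, h43, h44, h45, h46, h50, h51, h52, h53, h54, h55, h56, h60, h61, h62,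
      h63, h64, h65, h66]
    field_simp
    ring
  have fβ : (inner ℝ m b : ℝ) = r ^ 2 / 2 * (g01 + g12) := by
    rw [hm, hb]
    simp only [← real_inner_self_eq_norm_sq, inner_add_left, inner_add_right, inner_sub_left,
      inner_sub_right, inner_smul_left, inner_smul_right, conj_trivial, xu, xv, xw, ux, vx, wx,
      xt0, xt1, xt2, xt3, tx0, tx1, tx2, tx3, xx, h00, h01, h02, h03, h04, h05, h06, h10, h11,
      h12, h13, h14, h15, h16, h20, h21, h22, h23, h24, h25, h26, h30, h31, h32, h33, h34, h35,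
      h36, h40, h41, h42, h43, h44, h45, h46, h50, h51, h52, h53, h54, h55, h56, h60, h61, h62,
      h63, h64, h65, h66]
    field_simp
    ring
  have fm1 : (inner ℝ m m₁ : ℝ) = r ^ 3 / 4 * (g03 + g05 + g23 + g25) := by
    rw [hm, hm1]
    simp only [← real_inner_self_eq_norm_sq, inner_add_left, inner_add_right, inner_sub_left,
      inner_sub_right, inner_smul_left, inner_smul_right, conj_trivial, xu, xv, xw, ux, vx, wx,
      xt0, xt1, xt2, xt3, tx0, tx1, tx2, tx3, xx, h00, h01, h02, h03, h04, h05, h06, h10, h11,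
      h12, h13, h14, h15, h16, h20, h21, h22, h23, h24, h25, h26, h30, h31, h32, h33, h34, h35,
      h36, h40, h41, h42, h43, h44, h45, h46, h50, h51, h52, h53, h54, h55, h56, h60, h61, h62,
      h63, h64, h65, h66]
    field_simp
    ring
  have fm2 : (inner ℝ m m₂ : ℝ) = r ^ 3 / 4 * (g04 + g06 + g24 + g26) := by
    rw [hm, hm2]
    simp only [← real_inner_self_eq_norm_sq, inner_add_left, inner_add_right, inner_sub_left,
      inner_sub_right, inner_smul_left, inner_smul_right, conj_trivial, xu, xv, xw, ux, vx, wx,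
      xt0, xt1, xt2, xt3, tx0, tx1, tx2, tx3, xx, h00, h01, h02, h03, h04, h05, h06, h10, h11,
      h12, h13, h14, h15, h16, h20, h21, h22, h23, h24, h25, h26, h30, h31, h32, h33, h34, h35,
      h36, h40, h41, h42, h43, h44, h45, h46, h50, h51, h52, h53, h54, h55, h56, h60, h61, h62,
      h63, h64, h65, h66]
    field_simp
    ring
  have fdα1 : (inner ℝ m₁ a : ℝ) + inner ℝ m a₁ = r ^ 3 / 2 * (g03 - g25) := by
    rw [hm1, ha, hm, ea1]
    simp only [← real_inner_self_eq_norm_sq, inner_add_left, inner_add_right, inner_sub_left,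
      inner_sub_right, inner_smul_left, inner_smul_right, conj_trivial, xu, xv, xw, ux, vx, wx,
      xt0, xt1, xt2, xt3, tx0, tx1, tx2, tx3, xx, h00, h01, h02, h03, h04, h05, h06, h10, h11,
      h12, h13, h14, h15, h16, h20, h21, h22, h23, h24, h25, h26, h30, h31, h32, h33, h34, h35,
      h36, h40, h41, h42, h43, h44, h45, h46, h50, h51, h52, h53, h54, h55, h56, h60, h61, h62,
      h63, h64, h65, h66]
    field_simp
    ring
  have fdα2 : (inner ℝ m₂ a : ℝ) + inner ℝ m a₂ = r ^ 3 / 2 * (g04 - g26) := by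
    rw [hm2, ha, hm, ea2]
    simp only [← real_inner_self_eq_norm_sq, inner_add_left, inner_add_right, inner_sub_left,
      inner_sub_right, inner_smul_left, inner_smul_right, conj_trivial, xu, xv, xw, ux, vx, wx,
      xt0, xt1, xt2, xt3, tx0, tx1, tx2, tx3, xx, h00, h01, h02, h03, h04, h05, h06, h10, h11,
      h12, h13, h14, h15, h16, h20, h21, h22, h23, h24, h25, h26, h30, h31, h32, h33, h34, h35,
      h36, h40, h41, h42, h43, h44, h45, h46, h50, h51, h52, h53, h54, h55, h56, h60, h61, h62,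
      h63, h64, h65, h66]
    field_simp
    ring
  have fdβ1 : (inner ℝ m₁ b : ℝ) + inner ℝ m b₁ = r ^ 3 / 2 * (g13 + g15 + g04 + g24) := by
    rw [hm1, hb, hm, eb1]
    simp only [← real_inner_self_eq_norm_sq, inner_add_left, inner_add_right, inner_sub_left,
      inner_sub_right, inner_smul_left, inner_smul_right, conj_trivial, xu, xv, xw, ux, vx, wx,
      xt0, xt1, xt2, xt3, tx0, tx1, tx2, tx3, xx, h00, h01, h02, h03, h04, h05, h06, h10, h11,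
      h12, h13, h14, h15, h16, h20, h21, h22, h23, h24, h25, h26, h30, h31, h32, h33, h34, h35,
      h36, h40, h41, h42, h43, h44, h45, h46, h50, h51, h52, h53, h54, h55, h56, h60, h61, h62,
      h63, h64, h65, h66]
    field_simp
    ring
  have fdβ2 : (inner ℝ m₂ b : ℝ) + inner ℝ m b₂ = r ^ 3 / 2 * (g14 + g16 + g05 + g25) := by
    rw [hm2, hb, hm, eb2]
    simp only [← real_inner_self_eq_norm_sq, inner_add_left, inner_add_right, inner_sub_left,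
      inner_sub_right, inner_smul_left, inner_smul_right, conj_trivial, xu, xv, xw, ux, vx, wx,
      xt0, xt1, xt2, xt3, tx0, tx1, tx2, tx3, xx, h00, h01, h02, h03, h04, h05, h06, h10, h11,
      h12, h13, h14, h15, h16, h20, h21, h22, h23, h24, h25, h26, h30, h31, h32, h33, h34, h35,
      h36, h40, h41, h42, h43, h44, h45, h46, h50, h51, h52, h53, h54, h55, h56, h60, h61, h62,
      h63, h64, h65, h66]
    field_simp
    ring
  have na1 : ‖a₁‖ ^ 2 = r ^ 4 / 4 * (g33 - 2 * g35 + g55) := by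
    rw [ea1]
    simp only [← real_inner_self_eq_norm_sq, inner_add_left, inner_add_right, inner_sub_left,
      inner_sub_right, inner_smul_left, inner_smul_right, conj_trivial, xu, xv, xw, ux, vx, wx,
      xt0, xt1, xt2, xt3, tx0, tx1, tx2, tx3, xx, h00, h01, h02, h03, h04, h05, h06, h10, h11,
      h12, h13, h14, h15, h16, h20, h21, h22, h23, h24, h25, h26, h30, h31, h32, h33, h34, h35,
      h36, h40, h41, h42, h43, h44, h45, h46, h50, h51, h52, h53, h54, h55, h56, h60, h61, h62,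
      h63, h64, h65, h66]
    ring
  have nb1 : ‖b₁‖ ^ 2 = r ^ 4 * g44 := by
    rw [eb1]
    simp only [← real_inner_self_eq_norm_sq, inner_add_left, inner_add_right, inner_sub_left,
      inner_sub_right, inner_smul_left, inner_smul_right, conj_trivial, xu, xv, xw, ux, vx, wx,
      xt0, xt1, xt2, xt3, tx0, tx1, tx2, tx3, xx, h00, h01, h02, h03, h04, h05, h06, h10, h11,
      h12, h13, h14, h15, h16, h20, h21, h22, h23, h24, h25, h26, h30, h31, h32, h33, h34, h35,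
      h36, h40, h41, h42, h43, h44, h45, h46, h50, h51, h52, h53, h54, h55, h56, h60, h61, h62,
      h63, h64, h65, h66]
    ring
  have na2 : ‖a₂‖ ^ 2 = r ^ 4 / 4 * (g44 - 2 * g46 + g66) := by
    rw [ea2]
    simp only [← real_inner_self_eq_norm_sq, inner_add_left, inner_add_right, inner_sub_left,
      inner_sub_right, inner_smul_left, inner_smul_right, conj_trivial, xu, xv, xw, ux, vx, wx,
      xt0, xt1, xt2, xt3, tx0, tx1, tx2, tx3, xx, h00, h01, h02, h03, h04, h05, h06, h10, h11,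
      h12, h13, h14, h15, h16, h20, h21, h22, h23, h24, h25, h26, h30, h31, h32, h33, h34, h35,
      h36, h40, h41, h42, h43, h44, h45, h46, h50, h51, h52, h53, h54, h55, h56, h60, h61, h62,
      h63, h64, h65, h66]
    ring
  have nb2 : ‖b₂‖ ^ 2 = r ^ 4 * g55 := by
    rw [eb2]
    simp only [← real_inner_self_eq_norm_sq, inner_add_left, inner_add_right, inner_sub_left,
      inner_sub_right, inner_smul_left, inner_smul_right, conj_trivial, xu, xv, xw, ux, vx, wx,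
      xt0, xt1, xt2, xt3, tx0, tx1, tx2, tx3, xx, h00, h01, h02, h03, h04, h05, h06, h10, h11,
      h12, h13, h14, h15, h16, h20, h21, h22, h23, h24, h25, h26, h30, h31, h32, h33, h34, h35,
      h36, h40, h41, h42, h43, h44, h45, h46, h50, h51, h52, h53, h54, h55, h56, h60, h61, h62,
      h63, h64, h65, h66]
    ring
  have nm1 : ‖m₁‖ ^ 2 = r ^ 4 / 4 * (g33 + 2 * g35 + g55) := by
    rw [hm1]
    simp only [← real_inner_self_eq_norm_sq, inner_add_left, inner_add_right, inner_sub_left,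
      inner_sub_right, inner_smul_left, inner_smul_right, conj_trivial, xu, xv, xw, ux, vx, wx,
      xt0, xt1, xt2, xt3, tx0, tx1, tx2, tx3, xx, h00, h01, h02, h03, h04, h05, h06, h10, h11,
      h12, h13, h14, h15, h16, h20, h21, h22, h23, h24, h25, h26, h30, h31, h32, h33, h34, h35,
      h36, h40, h41, h42, h43, h44, h45, h46, h50, h51, h52, h53, h54, h55, h56, h60, h61, h62,
      h63, h64, h65, h66]
    ring
  have nm2 : ‖m₂‖ ^ 2 = r ^ 4 / 4 * (g44 + 2 * g46 + g66) := by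
    rw [hm2]
    simp only [← real_inner_self_eq_norm_sq, inner_add_left, inner_add_right, inner_sub_left,
      inner_sub_right, inner_smul_left, inner_smul_right, conj_trivial, xu, xv, xw, ux, vx, wx,
      xt0, xt1, xt2, xt3, tx0, tx1, tx2, tx3, xx, h00, h01, h02, h03, h04, h05, h06, h10, h11,
      h12, h13, h14, h15, h16, h20, h21, h22, h23, h24, h25, h26, h30, h31, h32, h33, h34, h35,
      h36, h40, h41, h42, h43, h44, h45, h46, h50, h51, h52, h53, h54, h55, h56, h60, h61, h62,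
      h63, h64, h65, h66]
    ring
  have i1 : (inner ℝ m₁ a₁ : ℝ) = r ^ 4 / 4 * (g33 - g55) := by
    rw [hm1, ea1]
    simp only [← real_inner_self_eq_norm_sq, inner_add_left, inner_add_right, inner_sub_left,
      inner_sub_right, inner_smul_left, inner_smul_right, conj_trivial, xu, xv, xw, ux, vx, wx,
      xt0, xt1, xt2, xt3, tx0, tx1, tx2, tx3, xx, h00, h01, h02, h03, h04, h05, h06, h10, h11,
      h12, h13, h14, h15, h16, h20, h21, h22, h23, h24, h25, h26, h30, h31, h32, h33, h34, h35,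
      h36, h40, h41, h42, h43, h44, h45, h46, h50, h51, h52, h53, h54, h55, h56, h60, h61, h62,
      h63, h64, h65, h66]
    ring
  have i2 : (inner ℝ m₂ a₂ : ℝ) = r ^ 4 / 4 * (g44 - g66) := by
    rw [hm2, ea2]
    simp only [← real_inner_self_eq_norm_sq, inner_add_left, inner_add_right, inner_sub_left,
      inner_sub_right, inner_smul_left, inner_smul_right, conj_trivial, xu, xv, xw, ux, vx, wx,
      xt0, xt1, xt2, xt3, tx0, tx1, tx2, tx3, xx, h00, h01, h02, h03, h04, h05, h06, h10, h11,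
      h12, h13, h14, h15, h16, h20, h21, h22, h23, h24, h25, h26, h30, h31, h32, h33, h34, h35,
      h36, h40, h41, h42, h43, h44, h45, h46, h50, h51, h52, h53, h54, h55, h56, h60, h61, h62,
      h63, h64, h65, h66]
    ring
  have i3 : (inner ℝ m₁ b₁ : ℝ) = r ^ 4 / 2 * (g34 + g45) := by
    rw [hm1, eb1]
    simp only [← real_inner_self_eq_norm_sq, inner_add_left, inner_add_right, inner_sub_left,
      inner_sub_right, inner_smul_left, inner_smul_right, conj_trivial, xu, xv, xw, ux, vx, wx,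
      xt0, xt1, xt2, xt3, tx0, tx1, tx2, tx3, xx, h00, h01, h02, h03, h04, h05, h06, h10, h11,
      h12, h13, h14, h15, h16, h20, h21, h22, h23, h24, h25, h26, h30, h31, h32, h33, h34, h35,
      h36, h40, h41, h42, h43, h44, h45, h46, h50, h51, h52, h53, h54, h55, h56, h60, h61, h62,
      h63, h64, h65, h66]
    ring
  have i4 : (inner ℝ m₂ b₂ : ℝ) = r ^ 4 / 2 * (g45 + g56) := by
    rw [hm2, eb2]
    simp only [← real_inner_self_eq_norm_sq, inner_add_left, inner_add_right, inner_sub_left,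
      inner_sub_right, inner_smul_left, inner_smul_right, conj_trivial, xu, xv, xw, ux, vx, wx,
      xt0, xt1, xt2, xt3, tx0, tx1, tx2, tx3, xx, h00, h01, h02, h03, h04, h05, h06, h10, h11,
      h12, h13, h14, h15, h16, h20, h21, h22, h23, h24, h25, h26, h30, h31, h32, h33, h34, h35,
      h36, h40, h41, h42, h43, h44, h45, h46, h50, h51, h52, h53, h54, h55, h56, h60, h61, h62,
      h63, h64, h65, h66]
    ring
  refine ⟨m, a, b, m₁, m₂, p, q, a₁, b₁, a₂, b₂, ‖m‖ ^ 2, ‖a‖ ^ 2 + ‖b‖ ^ 2,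
    (inner ℝ m a : ℝ) ^ 2 + (inner ℝ m b : ℝ) ^ 2, inner ℝ m a, inner ℝ m b, inner ℝ m₁ a + inner ℝ m a₁,
    inner ℝ m₂ a + inner ℝ m a₂, inner ℝ m₁ b + inner ℝ m b₁, inner ℝ m₂ b + inner ℝ m b₂,
    ‖a‖ ^ 2 * ‖b‖ ^ 2 - (inner ℝ a b : ℝ) ^ 2, ?_, ?_, ?_, ?_, ?_, ?_, ?_, ha1, hb1, ha2, hb2, rfl, rfl, rfl,
    rfl, rfl, rfl, rfl, rfl, rfl, rfl, ?_, ?_, ?_, ?_, ?_, ?_, ?_, ?_, ?_, ?_⟩
  · rw [hm, hu, hw]
  · rw [ha, hu, hw]
  · rw [hb, hv]
  · rw [hm1, h0, h2]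
  · rw [hm2, h1, h3]
  · rw [hp, h0, h2]
  · rw [hq, h1, h3]
  · rw [fx, eY]
  · rw [fa, fb, eX, eY]
    ring
  · rw [fα, fβ, eZ, eY]
    ring
  · rw [fm1, eY0]
    ring
  · rw [fm2, eY1]
    ring
  · rw [fdα1, fdβ1, fα, fβ, eZ0, eY, eY0]
    ring
  · rw [fdα2, fdβ2, fα, fβ, eZ1, eY, eY1]
    ring
  · rw [na1, nb1, na2, nb2, fα, fβ, fa, fb, fab, ehX, ehY, eX, eY]
    ring
  · rw [nm1, nm2, fx, fα, fβ, ehY, eY]
    ring
  · rw [fdα1, fdα2, fdβ1, fdβ2, i1, i2, i3, i4, fx, fa, fb, fα, fβ, ehZ, ehY, eY, eY0, eY1, eZ]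
    ring

end Helper25.MS
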